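import Pool.Agent.H39Z.SSS.Spec

/-! Construction of totally positive integer polynomials near a prescribed root set. -/

set_option autoImplicit false

namespace Pool.Agent.H516Z.SSSBuild

open Polynomial Matrix Finset Pool.Agent.H39Z.SSS

theorem roots_of_signs (p : ℝ[X]) (m : ℕ) (hp : p.Monic) (hd : p.natDegree = m) (τ : ℕ → ℝ)
    (hτ : ∀ i j, i ≤ j → τ i ≤ τ j)
    (hs : ∀ j, j < m → p.eval (τ j) * p.eval (τ (j + 1)) < 0) :
    ∃ ρ : Fin m → ℝ, Function.Injective ρ ∧ (∀ j : Fin m, τ j < ρ j ∧ ρ j < τ (j + 1)) ∧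
      p = ∏ j, (X - C (ρ j)) := by
  have h1 : ∀ j : Fin m, ∃ r, τ j < r ∧ r < τ (j + 1) ∧ p.eval r = 0 := by
    intro j
    have hle := hτ j (j + 1) (Nat.le_succ _)
    have hc : ContinuousOn (fun x => p.eval x) (Set.Icc (τ j) (τ (j + 1))) :=
      p.continuous.continuousOn
    have h := hs j j.2
    rcases mul_neg_iff.1 h with ⟨h1, h2⟩ | ⟨h1, h2⟩
    · obtain ⟨r, hr, h0⟩ := intermediate_value_Ioo' hle hc (⟨h2, h1⟩ : (0 : ℝ) ∈ Set.Ioo _ _)
      exact ⟨r, hr.1, hr.2, h0⟩
    · obtain ⟨r, hr, h0⟩ := intermediate_value_Ioo hle hc (⟨h1, h2⟩ : (0 : ℝ) ∈ Set.Ioo _ _)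
      exact ⟨r, hr.1, hr.2, h0⟩
  choose ρ hρ using h1
  have hmono : StrictMono ρ := by
    intro i j hij
    have := hτ (i + 1) j hij
    linarith [(hρ i).2.1, (hρ j).1]
  refine ⟨ρ, hmono.injective, fun j => ⟨(hρ j).1, (hρ j).2.1⟩, ?_⟩
  have hq : (∏ j, (X - C (ρ j)) : ℝ[X]).Monic := monic_prod_of_monic _ _ fun j _ => monic_X_sub_C _
  have hqd : (∏ j, (X - C (ρ j)) : ℝ[X]).natDegree = m := by
    rw [natDegree_prod_of_monic _ _ fun j _ => monic_X_sub_C _]
    simp
  refine eq_of_degree_sub_lt_of_eval_index_eq (v := ρ) univ hmono.injective.injOn ?_ ?_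
  · have h2 : p.degree = (∏ j, (X - C (ρ j)) : ℝ[X]).degree := by
      rw [degree_eq_natDegree hp.ne_zero, degree_eq_natDegree hq.ne_zero, hd, hqd]
    have h3 := degree_sub_lt_left h2 hp.ne_zero (by rw [hp.leadingCoeff, hq.leadingCoeff])
    rw [degree_eq_natDegree hp.ne_zero, hd] at h3
    simpa using h3
  · intro i _
    rw [(hρ i).2.2, eval_prod]
    exact (prod_eq_zero (mem_univ i) (by simp)).symm

theorem round_top (n : ℕ) (q : ℕ → ℝ[X]) (hq : ∀ j, (q j).Monic)
    (hd : ∀ j, (q j).natDegree = n + j) (k : ℕ) : ∀ p : ℝ[X], ∃ b : ℕ → ℝ,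
      (∀ j, |b j| ≤ 1 / 2) ∧ ∀ m, n ≤ m → m < n + k →
        ∃ z : ℤ, (p + ∑ j ∈ range k, C (b j) * q j).coeff m = z := by
  induction k with
  | zero => intro p; exact ⟨fun _ => 0, fun _ => by norm_num, fun m h1 h2 => by omega⟩
  | succ k ih =>
    intro p
    set c := p.coeff (n + k) with hc
    obtain ⟨b, hb, hz⟩ := ih (p + C ((round c : ℝ) - c) * q k)
    refine ⟨Function.update b k ((round c : ℝ) - c), ?_, ?_⟩
    · intro j
      by_cases h : j = k
      · subst h
        rw [Function.update_self, abs_sub_comm]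
        exact abs_sub_round c
      · rw [Function.update_of_ne h]; exact hb j
    · intro m h1 h2
      have he : p + ∑ j ∈ range (k + 1), C (Function.update b k ((round c : ℝ) - c) j) * q j =
          p + C ((round c : ℝ) - c) * q k + ∑ j ∈ range k, C (b j) * q j := by
        rw [sum_range_succ, Function.update_self, sum_congr rfl (g := fun j => C (b j) * q j)]
        · ring
        · intro j hj
          rw [Function.update_of_ne (mem_range.1 hj).ne]
      rw [he]
      by_cases h : m < n + k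
      · exact hz m h1 h
      · have hm : m = n + k := by omega
        refine ⟨round c, ?_⟩
        rw [hm, coeff_add, coeff_add, finsetSum_coeff, sum_eq_zero, coeff_C_mul, ← hc]
        · have : (q k).coeff (n + k) = 1 := by rw [← hd k]; exact (hq k).coeff_natDegree
          rw [this]; ring
        · intro j hj
          rw [coeff_C_mul, coeff_eq_zero_of_natDegree_lt, mul_zero]
          rw [hd j]; have := mem_range.1 hj; omega

theorem tail_bound (n : ℕ) (a b : ℕ → ℝ) (t : ℝ) (hb : ∀ j, |b j| ≤ 1 / 2)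
    (ha : ∀ i, n ≤ i → 4 ≤ |t - a i|) (k : ℕ) :
    |∑ j ∈ range k, b j * ∏ i ∈ range (n + j), (t - a i)| ≤
        |∏ i ∈ range (n + k), (t - a i)| / 6 ∧
      4 ^ k * |∏ i ∈ range n, (t - a i)| ≤ |∏ i ∈ range (n + k), (t - a i)| := by
  induction k with
  | zero => simp; positivity
  | succ k ih =>
    have h4 := ha (n + k) (Nat.le_add_right _ _)
    have h0 := abs_nonneg (∏ i ∈ range (n + k), (t - a i))
    have h5 : 4 * |∏ i ∈ range (n + k), (t - a i)| ≤ |∏ i ∈ range (n + (k + 1)), (t - a i)| := by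
      rw [← add_assoc, prod_range_succ, abs_mul]
      nlinarith
    constructor
    · rw [sum_range_succ]
      refine (abs_add_le _ _).trans ?_
      rw [abs_mul]
      have := mul_le_mul_of_nonneg_right (hb k) h0
      linarith [ih.1]
    · rw [pow_succ]; linarith [ih.2]

theorem sign_keep (x y x' y' : ℝ) (h : x * y < 0) (hx : |x' - x| < |x|) (hy : |y' - y| < |y|) :
    x' * y' < 0 := by
  rw [abs_lt] at hx hy
  rcases mul_neg_iff.1 h with ⟨h1, h2⟩ | ⟨h1, h2⟩
  · rw [abs_of_pos h1] at hx
    rw [abs_of_neg h2] at hy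
    exact mul_neg_of_pos_of_neg (by linarith [hx.1]) (by linarith [hy.2])
  · rw [abs_of_neg h1] at hx
    rw [abs_of_pos h2] at hy
    exact mul_neg_of_neg_of_pos (by linarith [hx.2]) (by linarith [hy.1])

theorem build : S_BUILD := by
  intro n k y σ B Γ hn hσ hσ1 hy0 hyB hyy hΓ hk hT
  classical
  let a : ℕ → ℝ := fun j => if h : j < n then y ⟨j, h⟩ else B + 8 * ((j : ℝ) - n + 1)
  let g : ℕ → ℝ := fun j => if j < n then σ / 2 else 4
  let τ : ℕ → ℝ := fun j => Nat.casesOn j (a 0 - g 0) fun i => a i + g i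
  have hay : ∀ i : Fin n, a i = y i := fun i => by simp only [a]; rw [dif_pos i.2]
  have hg0 : ∀ i, σ / 2 ≤ g i := fun i => by simp only [g]; split_ifs <;> linarith
  have hK : ∀ i j, i < j → a i + g i + g j ≤ a j := by
    intro i j hij
    simp only [a, g]
    by_cases hj : j < n
    · have hi : i < n := hij.trans hj
      rw [dif_pos hi, dif_pos hj, if_pos hi, if_pos hj]
      have := hyy ⟨i, hi⟩ ⟨j, hj⟩ hij
      linarith
    · have hj' : (n : ℝ) ≤ j := by exact_mod_cast not_lt.1 hj
      rw [dif_neg hj, if_neg hj]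
      by_cases hi : i < n
      · rw [dif_pos hi, if_pos hi]
        have := hyB ⟨i, hi⟩
        linarith
      · rw [dif_neg hi, if_neg hi]
        have : (i : ℝ) + 1 ≤ j := by exact_mod_cast hij
        linarith
  have hA : ∀ i j, i < j → a i + g i ≤ τ j := by
    intro i j hij
    obtain ⟨j, rfl⟩ : ∃ l, j = l + 1 := ⟨j - 1, by omega⟩
    change a i + g i ≤ a j + g j
    rcases (Nat.lt_succ_iff.1 hij).eq_or_lt with h | h
    · rw [h]
    · linarith [hK i j h, hg0 j]
  have hB : ∀ i j, j ≤ i → τ j + g i ≤ a i := by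
    intro i j hij
    rcases j with _ | j
    · change a 0 - g 0 + g i ≤ a i
      rcases hij.eq_or_lt with h | h
      · rw [← h]; linarith
      · linarith [hK 0 i h, hg0 0]
    · exact hK j i hij
  have hτ : ∀ i j, i ≤ j → τ i ≤ τ j := by
    intro i j hij
    rcases hij.eq_or_lt with h | h
    · rw [h]
    · linarith [hA i j h, hB i i le_rfl, hg0 i]
  have hdist : ∀ i j, g i ≤ |τ j - a i| := by
    intro i j
    rcases lt_or_ge i j with h | h
    · exact le_abs.2 (Or.inl (by linarith [hA i j h]))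
    · exact le_abs.2 (Or.inr (by linarith [hB i j h]))
  let Q : ℕ → ℝ[X] := fun m => ∏ i ∈ range m, (X - C (a i))
  have hQm : ∀ m, (Q m).Monic := fun m => monic_prod_of_monic _ _ fun j _ => monic_X_sub_C _
  have hQd : ∀ m, (Q m).natDegree = m := fun m => by
    simp only [Q]
    rw [natDegree_prod_of_monic _ _ fun j _ => monic_X_sub_C _]
    simp
  have hQe : ∀ m t, (Q m).eval t = ∏ i ∈ range m, (t - a i) := fun m t => by
    simp only [Q]; rw [eval_prod]; simp
  obtain ⟨b, hb, hbz⟩ := round_top n (fun j => Q (n + j)) (fun j => hQm _) (fun j => hQd _) k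
    (Q (n + k))
  obtain ⟨u, z, hu, huz⟩ := hT fun j =>
    (Q (n + k) + ∑ j ∈ range k, C (b j) * Q (n + j)).coeff j
  let E : Fin n → ℝ[X] := fun l => ∏ i ∈ univ.erase l, (X - C (y i))
  have hEd : ∀ l, (E l).natDegree < n := fun l => by
    simp only [E]
    rw [natDegree_prod_of_monic _ _ fun j _ => monic_X_sub_C _]
    simp [card_erase_of_mem, hn]
  let R : ℝ[X] := ∑ j ∈ range k, C (b j) * Q (n + j) - ∑ l, C (u l) * E l
  have hRc : ∀ m, n + k ≤ m → R.coeff m = 0 := by
    intro m hm
    simp only [R]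
    rw [coeff_sub, finsetSum_coeff, finsetSum_coeff, sum_eq_zero, sum_eq_zero, sub_zero]
    · intro l _
      rw [coeff_C_mul, coeff_eq_zero_of_natDegree_lt, mul_zero]
      have := hEd l; omega
    · intro j hj
      rw [coeff_C_mul, coeff_eq_zero_of_natDegree_lt, mul_zero]
      rw [hQd]; have := mem_range.1 hj; omega
  have hRd : R.degree < (Q (n + k)).degree := by
    rw [degree_eq_natDegree (hQm _).ne_zero, hQd]
    exact (degree_lt_iff_coeff_zero _ _).2 hRc
  have hPm : (Q (n + k) + R).Monic := (hQm _).add_of_left hRd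
  have hPd : (Q (n + k) + R).natDegree = n + k := by
    rw [natDegree_add_eq_left_of_degree_lt hRd, hQd]
  have hlift : Q (n + k) + R ∈ lifts (Int.castRingHom ℝ) := by
    rw [lifts_iff_coeff_lifts]
    intro m
    have he : (Q (n + k) + R).coeff m =
        (Q (n + k) + ∑ j ∈ range k, C (b j) * Q (n + j)).coeff m - ∑ l, u l * (E l).coeff m := by
      simp only [R]
      rw [← add_sub_assoc, coeff_sub, finsetSum_coeff univ]
      simp only [coeff_C_mul]
    by_cases h1 : m < n
    · refine ⟨z ⟨m, h1⟩, ?_⟩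
      have := congrFun huz ⟨m, h1⟩
      simp only [Pi.add_apply, vecMul, dotProduct, eB, Matrix.of_apply] at this
      rw [he, this]
      simp [E]
    · by_cases h2 : m < n + k
      · obtain ⟨w, hw⟩ := hbz m (not_lt.1 h1) h2
        refine ⟨w, ?_⟩
        rw [he, hw, sum_eq_zero]
        · simp
        · intro l _
          rw [coeff_eq_zero_of_natDegree_lt, mul_zero]
          have := hEd l; omega
      · rcases (not_lt.1 h2).eq_or_lt with h3 | h3
        · refine ⟨1, ?_⟩
          have h4 := hPm.coeff_natDegree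
          rw [hPd, h3] at h4
          rw [h3, h4]; simp
        · refine ⟨0, ?_⟩
          rw [coeff_eq_zero_of_natDegree_lt (by rw [hPd]; exact h3)]; simp
  obtain ⟨P, hP, hPn, hPM⟩ := lifts_and_natDegree_eq_and_monic hlift hPm
  have hnear : ∀ j, |(Q (n + k) + R).eval (τ j) - (Q (n + k)).eval (τ j)| <
      |(Q (n + k)).eval (τ j)| := by
    intro j
    obtain ⟨h1, h2⟩ := tail_bound n a b (τ j) hb (fun i hi => by
      have := hdist i j
      simp only [g] at this
      rwa [if_neg (not_lt.2 hi)] at this) k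
    have hpos : 0 < |∏ i ∈ range (n + k), (τ j - a i)| := by
      rw [abs_prod]
      exact prod_pos fun i _ => by linarith [hdist i j, hg0 i]
    have h3 : ∀ l, |u l * (E l).eval (τ j)| ≤ Γ * (2 / σ * |∏ i ∈ range n, (τ j - a i)|) := by
      intro l
      rw [abs_mul]
      refine mul_le_mul (hu l) ?_ (abs_nonneg _) hΓ
      have h4 : ∏ i ∈ range n, (τ j - a i) = (τ j - y l) * (E l).eval (τ j) := by
        rw [← Fin.prod_univ_eq_prod_range (fun i => τ j - a i), ← mul_prod_erase _ _ (mem_univ l)]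
        simp only [E, eval_prod, hay, eval_sub, eval_X, eval_C]
      have h5 := hdist l j
      rw [hay] at h5
      rw [h4, abs_mul, div_mul_eq_mul_div, le_div_iff₀ hσ]
      nlinarith [abs_nonneg ((E l).eval (τ j)), hg0 l]
    have h6 : |∑ l, u l * (E l).eval (τ j)| ≤ |∏ i ∈ range (n + k), (τ j - a i)| / 4 := by
      refine (abs_sum_le_sum_abs _ _).trans ((sum_le_sum fun l _ => h3 l).trans ?_)
      rw [sum_const, card_univ, Fintype.card_fin, nsmul_eq_mul]
      have h7 := mul_le_mul_of_nonneg_right hk (abs_nonneg (∏ i ∈ range n, (τ j - a i)))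
      have h8 : (n : ℝ) * (Γ * (2 / σ * |∏ i ∈ range n, (τ j - a i)|)) =
          8 * n * Γ / σ * |∏ i ∈ range n, (τ j - a i)| / 4 := by ring
      rw [h8]; linarith
    have h9 : (Q (n + k) + R).eval (τ j) - (Q (n + k)).eval (τ j) =
        ∑ i ∈ range k, b i * ∏ l ∈ range (n + i), (τ j - a l) - ∑ l, u l * (E l).eval (τ j) := by
      simp only [R, eval_add, eval_sub, eval_finsetSum, eval_mul, eval_C, hQe]
      ring
    rw [h9, hQe]
    refine (abs_sub _ _).trans_lt ?_
    linarith
  obtain ⟨ρ, hρi, hρ, hρp⟩ := roots_of_signs _ (n + k) hPm hPd τ hτ (by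
    intro j hj
    refine sign_keep _ _ _ _ ?_ (hnear j) (hnear (j + 1))
    rw [hQe, hQe, ← prod_mul_distrib, ← mul_prod_erase _ _ (mem_range.2 hj)]
    refine mul_neg_of_neg_of_pos (mul_neg_of_neg_of_pos ?_ ?_) (prod_pos fun i hi => ?_)
    · linarith [hB j j le_rfl, hg0 j]
    · linarith [hA j (j + 1) (Nat.lt_succ_self _), hg0 j]
    · rcases lt_or_gt_of_ne (ne_of_mem_erase hi) with h | h
      · exact mul_pos (by linarith [hA i j h, hg0 i])
          (by linarith [hA i (j + 1) (by omega), hg0 i])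
      · exact mul_pos_of_neg_of_neg (by linarith [hB i j h.le, hg0 i])
          (by linarith [hB i (j + 1) h, hg0 i]))
  refine ⟨P, hPM, hPn.trans hPd, ρ, hρi, fun i => ?_, hP.trans hρp, ?_⟩
  · have h1 := hτ 0 i (Nat.zero_le _)
    have h2 : τ 0 = y ⟨0, hn⟩ - σ / 2 := by
      change a 0 - g 0 = _
      simp only [a, g]
      rw [dif_pos hn, if_pos hn]
    linarith [(hρ i).1, hy0 ⟨0, hn⟩]
  · have h1 : ∑ i, ρ i ≤ ∑ i ∈ range (n + k), (a i + g i) := by
      rw [← Fin.sum_univ_eq_sum_range (fun i => a i + g i)]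
      exact sum_le_sum fun i _ => (hρ i).2.le
    refine h1.trans ?_
    rw [sum_range_add]
    refine add_le_add ?_ ?_
    · rw [← Fin.sum_univ_eq_sum_range (fun i => a i + g i)]
      calc ∑ i : Fin n, (a i + g i) ≤ ∑ i : Fin n, (y i + σ) := sum_le_sum fun i _ => by
            rw [hay]; simp only [g]; rw [if_pos i.2]; linarith
        _ = _ := by rw [sum_add_distrib]; simp
    · calc ∑ i ∈ range k, (a (n + i) + g (n + i)) ≤ ∑ i ∈ range k, (B + 8 * k + 8) :=
            sum_le_sum fun i hi => by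
              have h2 : ¬ n + i < n := by omega
              have h3 : (i : ℝ) + 1 ≤ k := by exact_mod_cast mem_range.1 hi
              simp only [a, g]
              rw [dif_neg h2, if_neg h2]
              push_cast
              linarith
        _ = _ := by rw [sum_const, card_range, nsmul_eq_mul]

end Pool.Agent.H516Z.SSSBuild
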