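import Mathlib

set_option autoImplicit false

open Filter Topology Finset

namespace Pool.Agent.H516Z.CKX

abbrev c0 : Type := ZeroAtInftyContinuousMap ℕ ℝ

theorem c0_apply_le (a : c0) (k : ℕ) : |a k| ≤ ‖a‖ := by
  rw [← ZeroAtInftyContinuousMap.norm_toBCF_eq_norm]
  exact BoundedContinuousFunction.norm_coe_le_norm a.toBCF k

theorem c0_norm_le (a : c0) (r : ℝ) (hr : 0 ≤ r) (h : ∀ k, |a k| ≤ r) : ‖a‖ ≤ r := by
  rw [← ZeroAtInftyContinuousMap.norm_toBCF_eq_norm]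
  exact (BoundedContinuousFunction.norm_le hr).2 h

theorem c0_tendsto (a : c0) : Tendsto a cofinite (𝓝 0) := by
  have := ZeroAtInftyContinuousMapClass.zero_at_infty a
  rwa [cocompact_eq_cofinite] at this

/-- selection of a subsequence with summable weights -/
theorem select (F : Filter ℕ) [NeBot F] (hF : F ≤ atTop) (G : ℝ → ℕ → Prop)
    (R : ℝ → ℝ → ℕ → ℕ → Prop)
    (hG : ∀ w, 0 < w → ∀ᶠ a in F, G w a)
    (hR : ∀ w w' a, 0 < w → 0 < w' → G w a → ∀ᶠ b in F, R w w' a b)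
    (ε : ℝ) (hε : 0 < ε) :
    ∃ (σ : ℕ → ℕ) (w : ℕ → ℝ), StrictMono σ ∧ (∀ n, 0 < w n) ∧
      (∀ s : Finset ℕ, ∑ n ∈ s, w n ≤ ε) ∧ (∀ n, G (w n) (σ n)) ∧
      ∀ m n, m < n → R (w m) (w n) (σ m) (σ n) := by
  let W : ℕ → ℝ := fun i => ε / 2 / 2 ^ i
  have hW : ∀ i, 0 < W i := fun i => by positivity
  obtain ⟨f, hf1, hf2⟩ := exists_seq_of_forall_finset_exists
    (fun x : ℕ × ℕ => G (W x.1) x.2)
    (fun x y : ℕ × ℕ => x.1 < y.1 ∧ x.2 < y.2 ∧ R (W x.1) (W y.1) x.2 y.2) (by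
      intro s hs
      let i := s.sup (fun x => x.1) + 1
      have h1 : ∀ᶠ b in F, ∀ x ∈ s, x.2 < b ∧ R (W x.1) (W i) x.2 b := by
        rw [eventually_all_finset]
        intro x hx
        exact ((eventually_gt_atTop x.2).filter_mono hF).and
          (hR _ _ _ (hW _) (hW _) (hs x hx))
      obtain ⟨b, hb1, hb2⟩ := ((hG _ (hW i)).and h1).exists
      refine ⟨(i, b), hb1, fun x hx => ⟨?_, (hb2 x hx).1, (hb2 x hx).2⟩⟩
      exact Nat.lt_succ_of_le (Finset.le_sup (f := fun x : ℕ × ℕ => x.1) hx))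
  have hi : StrictMono (fun n => (f n).1) := fun m n h => (hf2 m n h).1
  refine ⟨fun n => (f n).2, fun n => W (f n).1, fun m n h => (hf2 m n h).2.1, fun n => hW _,
    fun s => ?_, hf1, fun m n h => (hf2 m n h).2.2⟩
  have hs := hasSum_geometric_two' ε
  calc ∑ n ∈ s, W (f n).1 ≤ ∑ n ∈ s, W n := by
        refine Finset.sum_le_sum fun n _ => ?_
        exact div_le_div_of_nonneg_left (by positivity) (by positivity)
          (pow_le_pow_right₀ (by norm_num) (hi.id_le n))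
    _ ≤ ε := sum_le_hasSum s (fun i _ => (hW i).le) hs

/-- limit of a bounded real function along an ultrafilter -/
theorem exists_ulim (U : Ultrafilter ℕ) (f : ℕ → ℝ) (C : ℝ) (h : ∀ k, |f k| ≤ C) :
    ∃ L, Tendsto f U (𝓝 L) := by
  obtain ⟨L, -, hL⟩ := (isCompact_Icc (a := -C) (b := C)).ultrafilter_le_nhds (U.map f) (by
    rw [Ultrafilter.coe_map, le_principal_iff, Filter.mem_map]
    exact Eventually.of_forall fun k => abs_le.1 (h k))
  exact ⟨L, hL⟩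

/-- Rosenthal type lemma for matrices with uniformly summable rows -/
theorem rosenthal (A : ℕ → ℕ → ℝ) (C : ℝ) (hA : ∀ k (s : Finset ℕ), ∑ j ∈ s, |A k j| ≤ C)
    (ε : ℝ) (hε : 0 < ε) :
    ∃ σ : ℕ → ℕ, StrictMono σ ∧ ∀ i (s : Finset ℕ), i ∉ s → ∑ j ∈ s, |A (σ i) (σ j)| ≤ ε := by
  let U := hyperfilter ℕ
  have hU : (U : Filter ℕ) ≤ atTop := Nat.hyperfilter_le_atTop
  have h1 : ∀ j, ∃ L, Tendsto (fun k => |A k j|) U (𝓝 L) := fun j =>
    exists_ulim U _ C fun k => by simpa using hA k {j}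
  choose L hL using h1
  have hL0 : ∀ j, 0 ≤ L j := fun j => ge_of_tendsto' (hL j) fun k => abs_nonneg _
  have hLs : Summable L := summable_of_sum_le hL0 (c := C) fun s =>
    le_of_tendsto' (tendsto_finsetSum s fun j _ => hL j) fun k => hA k s
  have hrow : ∀ k, Summable fun j => |A k j| := fun k =>
    summable_of_sum_le (fun j => abs_nonneg _) (hA k)
  obtain ⟨σ, w, hσ, hw, hsum, -, hR⟩ := select U hU (fun w a => L a < w)
    (fun w w' a b => |A b a| < w ∧ |A a b| < w')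
    (fun w hw => (hLs.tendsto_atTop_zero.eventually (gt_mem_nhds hw)).filter_mono hU)
    (fun w w' a _ hw' h => ((hL a).eventually (gt_mem_nhds h)).and
      (((hrow a).tendsto_atTop_zero.eventually (gt_mem_nhds hw')).filter_mono hU)) ε hε
  refine ⟨σ, hσ, fun i s hi => le_trans (Finset.sum_le_sum fun j hj => ?_) (hsum s)⟩
  rcases lt_trichotomy i j with h | h | h
  · exact (hR i j h).2.le
  · exact absurd (h ▸ hj) hi
  · exact (hR j i h).1.le

section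
variable {E : Type*} [NormedAddCommGroup E] [NormedSpace ℝ E]

/-- upper `c0` estimate -/
def UE (x : ℕ → E) (C : ℝ) : Prop :=
  ∀ (s : Finset ℕ) (a : ℕ → ℝ) (r : ℝ), 0 ≤ r → (∀ k ∈ s, |a k| ≤ r) →
    ‖∑ k ∈ s, a k • x k‖ ≤ C * r

theorem UE.nonneg {x : ℕ → E} {C : ℝ} (h : UE x C) : 0 ≤ C := by
  simpa using h ∅ 0 1 zero_le_one (by simp)

theorem UE.comp {x : ℕ → E} {C : ℝ} (h : UE x C) {τ : ℕ → ℕ} (hτ : Function.Injective τ) :
    UE (fun k => x (τ k)) C := by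
  intro s a r hr ha
  have := h (s.map ⟨τ, hτ⟩) (Function.extend τ a 0) r hr (by
    intro k hk
    obtain ⟨j, hj, rfl⟩ := Finset.mem_map.1 hk
    simpa [hτ.extend_apply] using ha j hj)
  simpa [Finset.sum_map, hτ.extend_apply] using this

theorem UE.map {F : Type*} [NormedAddCommGroup F] [NormedSpace ℝ F] {x : ℕ → E} {C : ℝ}
    (h : UE x C) (T : E →L[ℝ] F) (D : ℝ) (hD : ‖T‖ ≤ D) : UE (fun k => T (x k)) (D * C) := by
  intro s a r hr ha
  have h1 : ∑ k ∈ s, a k • T (x k) = T (∑ k ∈ s, a k • x k) := by simp [map_sum]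
  rw [h1]
  calc ‖T (∑ k ∈ s, a k • x k)‖ ≤ ‖T‖ * ‖∑ k ∈ s, a k • x k‖ := T.le_opNorm _
    _ ≤ D * (C * r) := mul_le_mul hD (h s a r hr ha) (norm_nonneg _) ((norm_nonneg _).trans hD)
    _ = D * C * r := by ring

theorem UE.row {x : ℕ → E} {C : ℝ} (h : UE x C) (φ : E →L[ℝ] ℝ) (s : Finset ℕ) :
    ∑ j ∈ s, |φ (x j)| ≤ ‖φ‖ * C := by
  have h1 := h.map φ ‖φ‖ le_rfl s (fun j => SignType.sign (φ (x j))) 1 zero_le_one (by
    intro k _
    rcases lt_trichotomy (φ (x k)) 0 with h | h | h <;> simp [h])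
  have h2 : ∑ j ∈ s, |φ (x j)| = ∑ k ∈ s, ((SignType.sign (φ (x k)) : ℝ)) • φ (x k) := by
    refine Finset.sum_congr rfl fun j _ => ?_
    rw [smul_eq_mul, sign_mul_self]
  rw [h2]
  exact (le_abs_self _).trans (by simpa using h1)

theorem UE.exists_op [CompleteSpace E] {x : ℕ → E} {C : ℝ} (h : UE x C) :
    ∃ S : c0 →L[ℝ] E, ∀ a : c0, HasSum (fun k => a k • x k) (S a) := by
  have hC := h.nonneg
  have hsum : ∀ a : c0, Summable fun k => a k • x k := by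
    intro a
    rw [summable_iff_vanishing_norm]
    intro ε hε
    have hr : 0 < ε / (C + 1) := by positivity
    have h1 : ∀ᶠ k in cofinite, |a k| < ε / (C + 1) := by
      have := (c0_tendsto a).abs
      rw [abs_zero] at this
      exact this.eventually (gt_mem_nhds hr)
    rw [eventually_cofinite] at h1
    refine ⟨h1.toFinset, fun t ht => ?_⟩
    have h2 := h t a _ hr.le (by
      intro k hk
      have := Finset.disjoint_left.1 ht hk
      simp only [Set.Finite.mem_toFinset, Set.mem_ofPred_eq, not_not] at this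
      exact this.le)
    refine h2.trans_lt ?_
    rw [mul_div_assoc', div_lt_iff₀ (by positivity)]
    nlinarith
  let S0 : c0 →ₗ[ℝ] E :=
    { toFun := fun a => ∑' k, a k • x k
      map_add' := fun a b => by
        rw [← (hsum a).tsum_add (hsum b)]
        simp [add_smul]
      map_smul' := fun c a => by
        rw [RingHom.id_apply, ← (hsum a).tsum_const_smul c]
        simp [mul_smul] }
  refine ⟨S0.mkContinuous C fun a => ?_, fun a => (hsum a).hasSum⟩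
  have h1 : Tendsto (fun s : Finset ℕ => ‖∑ k ∈ s, a k • x k‖) atTop (𝓝 ‖S0 a‖) :=
    (show Tendsto (fun s : Finset ℕ => ∑ k ∈ s, a k • x k) atTop (𝓝 (S0 a)) from
      (hsum a).hasSum).norm
  exact le_of_tendsto' h1 fun s => h s a _ (norm_nonneg a) fun k _ => c0_apply_le a k

/-- a subsequence which is almost biorthogonal -/
theorem UE.almost [CompleteSpace E] {x : ℕ → E} {C : ℝ} (h : UE x C) (φ : ℕ → E →L[ℝ] ℝ)
    (M : ℝ) (hM : ∀ k, ‖φ k‖ ≤ M) (h1 : ∀ k, φ k (x k) = 1) :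
    ∃ (σ : ℕ → ℕ) (S : c0 →L[ℝ] E), StrictMono σ ∧
      ∀ (a : c0) (i : ℕ), |φ (σ i) (S a) - a i| ≤ ‖a‖ / 2 := by
  obtain ⟨σ, hσ, hs⟩ := rosenthal (fun k j => φ k (x j)) (M * C)
    (fun k s => (h.row (φ k) s).trans (mul_le_mul_of_nonneg_right (hM k) h.nonneg))
    (1 / 2) (by norm_num)
  obtain ⟨S, hS⟩ := (h.comp hσ.injective).exists_op
  refine ⟨σ, S, hσ, fun a i => ?_⟩
  have h2 : HasSum (fun k => φ (σ i) (a k • x (σ k))) (φ (σ i) (S a)) := (hS a).mapL _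
  have h3 : Tendsto (fun s : Finset ℕ => |∑ k ∈ s, φ (σ i) (a k • x (σ k)) - a i|) atTop
      (𝓝 |φ (σ i) (S a) - a i|) :=
    ((show Tendsto (fun s : Finset ℕ => ∑ k ∈ s, φ (σ i) (a k • x (σ k))) atTop
      (𝓝 (φ (σ i) (S a))) from h2).sub_const _).abs
  refine le_of_tendsto h3 ?_
  filter_upwards [eventually_ge_atTop {i}] with s hi
  have hi' : i ∈ s := hi (Finset.mem_singleton_self i)
  rw [← Finset.add_sum_erase s _ hi']
  have h4 : φ (σ i) (a i • x (σ i)) = a i := by simp [h1]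
  rw [h4, add_sub_cancel_left]
  calc |∑ k ∈ s.erase i, φ (σ i) (a k • x (σ k))|
      ≤ ∑ k ∈ s.erase i, |φ (σ i) (a k • x (σ k))| := Finset.abs_sum_le_sum_abs _ _
    _ ≤ ∑ k ∈ s.erase i, ‖a‖ * |φ (σ i) (x (σ k))| := by
        refine Finset.sum_le_sum fun k _ => ?_
        rw [map_smul, smul_eq_mul, abs_mul]
        exact mul_le_mul_of_nonneg_right (c0_apply_le a k) (abs_nonneg _)
    _ = ‖a‖ * ∑ k ∈ s.erase i, |φ (σ i) (x (σ k))| := by rw [Finset.mul_sum]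
    _ ≤ ‖a‖ * (1 / 2) :=
        mul_le_mul_of_nonneg_left (hs i _ (Finset.notMem_erase i s)) (norm_nonneg _)
    _ = ‖a‖ / 2 := by ring

/-- `c0` embeds in `E` -/
def Emb (E : Type*) [NormedAddCommGroup E] [NormedSpace ℝ E] : Prop :=
  ∃ (T : c0 →L[ℝ] E) (c : ℝ), 0 < c ∧ ∀ f : c0, c * ‖f‖ ≤ ‖T f‖

/-- `c0` is complemented in `E` -/
def Cpl (E : Type*) [NormedAddCommGroup E] [NormedSpace ℝ E] : Prop :=
  ∃ (J : c0 →L[ℝ] E) (Q : E →L[ℝ] c0), Q.comp J = ContinuousLinearMap.id ℝ _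

theorem UE.tendsto_zero [CompleteSpace E] (hE : ¬ Emb E) {x : ℕ → E} {C : ℝ} (h : UE x C) :
    Tendsto (fun k => ‖x k‖) atTop (𝓝 0) := by
  by_contra hcon
  have h1 : ∃ δ : ℝ, 0 < δ ∧ ∃ᶠ k in atTop, δ ≤ ‖x k‖ := by
    by_contra h2
    push Not at h2
    apply hcon
    rw [tendsto_order]
    exact ⟨fun a ha => Eventually.of_forall fun k => ha.trans_le (norm_nonneg _),
      fun a ha => h2 a ha⟩
  obtain ⟨δ, hδ, hfr⟩ := h1
  obtain ⟨τ, hτ, hτδ⟩ := extraction_of_frequently_atTop hfr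
  have h3 := fun k => exists_dual_vector'' ℝ (x (τ k))
  choose g hg1 hg2 using h3
  have hpos : ∀ k, 0 < ‖x (τ k)‖ := fun k => hδ.trans_le (hτδ k)
  have hM : ∀ k, ‖‖x (τ k)‖⁻¹ • g k‖ ≤ δ⁻¹ := fun k => by
    rw [norm_smul, norm_inv, norm_norm]
    calc ‖x (τ k)‖⁻¹ * ‖g k‖ ≤ δ⁻¹ * 1 :=
          mul_le_mul (inv_anti₀ hδ (hτδ k)) (hg1 k) (norm_nonneg _) (by positivity)
      _ = δ⁻¹ := mul_one _
  obtain ⟨σ, S, -, hS⟩ := (h.comp hτ.injective).almost (fun k => ‖x (τ k)‖⁻¹ • g k) δ⁻¹ hM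
    (fun k => by
      have := hg2 k
      simp only [RCLike.ofReal_real_eq_id, id_eq] at this
      simp [this, (hpos k).ne'])
  apply hE
  refine ⟨S, δ / 2, by positivity, fun a => ?_⟩
  have h4 : ‖a‖ ≤ ‖a‖ / 2 + δ⁻¹ * ‖S a‖ := by
    refine c0_norm_le a _ (by positivity) fun i => ?_
    have h5 := hS a i
    have h6 : |(‖x (τ (σ i))‖⁻¹ • g (σ i)) (S a)| ≤ δ⁻¹ * ‖S a‖ :=
      (ContinuousLinearMap.le_opNorm _ _).trans (mul_le_mul_of_nonneg_right (hM _) (norm_nonneg _))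
    have h7 := abs_sub_abs_le_abs_sub (a i) ((‖x (τ (σ i))‖⁻¹ • g (σ i)) (S a))
    rw [abs_sub_comm] at h7
    linarith
  have h8 : δ * (δ⁻¹ * ‖S a‖) = ‖S a‖ := by field_simp
  nlinarith

theorem UE.cpl [CompleteSpace E] {x : ℕ → E} {C : ℝ} (h : UE x C) (φ : ℕ → E →L[ℝ] ℝ)
    (M : ℝ) (hM : ∀ k, ‖φ k‖ ≤ M) (δ : ℝ) (hδ : 0 < δ) (h1 : ∀ k, δ ≤ φ k (x k))
    (h0 : ∀ y, Tendsto (fun k => φ k y) atTop (𝓝 0)) : Cpl E := by
  have hpos : ∀ k, 0 < φ k (x k) := fun k => hδ.trans_le (h1 k)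
  have hM0 : 0 ≤ M := (norm_nonneg _).trans (hM 0)
  let ψ : ℕ → E →L[ℝ] ℝ := fun k => (φ k (x k))⁻¹ • φ k
  have hψ : ∀ k, ‖ψ k‖ ≤ δ⁻¹ * M := fun k => by
    rw [norm_smul, norm_inv, Real.norm_eq_abs, abs_of_pos (hpos k)]
    exact mul_le_mul (inv_anti₀ hδ (h1 k)) (hM k) (norm_nonneg _) (by positivity)
  have hψ0 : ∀ y, Tendsto (fun k => ψ k y) atTop (𝓝 0) := fun y => by
    have h2 : Tendsto (fun k => δ⁻¹ * |φ k y|) atTop (𝓝 0) := by
      simpa using ((h0 y).abs).const_mul δ⁻¹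
    refine squeeze_zero_norm (fun k => ?_) h2
    simp only [ψ, _root_.smul_apply, smul_eq_mul, norm_mul, norm_inv,
      Real.norm_eq_abs, abs_of_pos (hpos k)]
    exact mul_le_mul_of_nonneg_right (inv_anti₀ hδ (h1 k)) (abs_nonneg _)
  obtain ⟨σ, S, hσ, hS⟩ := h.almost ψ _ hψ (fun k => by simp [ψ, (hpos k).ne'])
  let Q0 : E →ₗ[ℝ] c0 :=
    { toFun := fun y => ⟨⟨fun i => ψ (σ i) y, continuous_of_discreteTopology⟩, by
        rw [cocompact_eq_cofinite, Nat.cofinite_eq_atTop]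
        exact (hψ0 y).comp hσ.tendsto_atTop⟩
      map_add' := fun y z => by ext i; simp
      map_smul' := fun c y => by ext i; simp }
  have hQ0 : ∀ y i, Q0 y i = ψ (σ i) y := fun y i => rfl
  let Q : E →L[ℝ] c0 := Q0.mkContinuous (δ⁻¹ * M) fun y =>
    c0_norm_le _ _ (by positivity) fun i => by
      rw [hQ0]
      exact (ContinuousLinearMap.le_opNorm _ _).trans
        (mul_le_mul_of_nonneg_right (hψ _) (norm_nonneg _))
  have hQ : ∀ y i, Q y i = ψ (σ i) y := fun y i => rfl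
  have hN : ‖(1 : c0 →L[ℝ] c0) - Q.comp S‖ < 1 := by
    refine lt_of_le_of_lt (ContinuousLinearMap.opNorm_le_bound _ (by norm_num : (0 : ℝ) ≤ 1 / 2)
      fun a => ?_) (by norm_num)
    refine c0_norm_le _ _ (by positivity) fun i => ?_
    have h2 : ((1 : c0 →L[ℝ] c0) - Q.comp S) a i = a i - ψ (σ i) (S a) := rfl
    rw [h2, abs_sub_comm]
    have := hS a i
    linarith
  let u : (c0 →L[ℝ] c0)ˣ := Units.oneSub ((1 : c0 →L[ℝ] c0) - Q.comp S) hN
  have hu : (u : c0 →L[ℝ] c0) = Q.comp S :=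
    sub_sub_cancel (1 : c0 →L[ℝ] c0) (Q.comp S)
  refine ⟨S, (↑u⁻¹ : c0 →L[ℝ] c0).comp Q, ?_⟩
  rw [ContinuousLinearMap.comp_assoc, ← hu]
  exact u.inv_mul

end

end Pool.Agent.H516Z.CKX
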