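import Mathlib
import Pool.Agent.H516Z.C0Basic

set_option autoImplicit false

open Filter Topology Finset MeasureTheory

namespace Pool.Agent.H516Z.CKX

variable {K : Type} [TopologicalSpace K] [CompactSpace K]

/-- positivity of a linear functional on `C(K)` -/
def Pos (m : C(K, ℝ) →ₗ[ℝ] ℝ) : Prop := ∀ g : C(K, ℝ), (∀ y, 0 ≤ g y) → 0 ≤ m g

omit [CompactSpace K] in
theorem Pos.mono {m : C(K, ℝ) →ₗ[ℝ] ℝ} (hm : Pos m) {f g : C(K, ℝ)} (h : ∀ y, f y ≤ g y) :
    m f ≤ m g := by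
  have := hm (g - f) fun y => by simpa using h y
  rw [map_sub] at this
  linarith

/-- bounded convergence for positive functionals -/
theorem Pos.tendsto_zero [T2Space K] {m : C(K, ℝ) →ₗ[ℝ] ℝ} (hm : Pos m) (h : ℕ → C(K, ℝ))
    (h0 : ∀ k y, 0 ≤ h k y) (h1 : ∀ k y, h k y ≤ 1)
    (hlim : ∀ y, Tendsto (fun k => h k y) atTop (𝓝 0)) :
    Tendsto (fun k => m (h k)) atTop (𝓝 0) := by
  borelize K
  let Λ : CompactlySupportedContinuousMap K ℝ →ₚ[ℝ] ℝ :=
    { toFun := fun g => m g.toContinuousMap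
      map_add' := fun g g' => by rw [← map_add]; rfl
      map_smul' := fun c g => by rw [RingHom.id_apply, ← map_smul]; rfl
      monotone' := fun g g' hgg' => hm.mono fun y => hgg' y }
  let μ := RealRMK.rieszMeasure Λ
  have hint : ∀ g : C(K, ℝ), ∫ y, g y ∂μ = m g := fun g =>
    RealRMK.integral_rieszMeasure Λ ⟨g, HasCompactSupport.of_compactSpace _⟩
  have := tendsto_integral_of_dominated_convergence (μ := μ) (F := fun k y => h k y)
    (f := fun _ => (0 : ℝ)) (fun _ => (1 : ℝ))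
    (fun k => (h k).continuous.aestronglyMeasurable) (integrable_const _)
    (fun k => Eventually.of_forall fun y => by
      rw [Real.norm_eq_abs, abs_of_nonneg (h0 k y)]; exact h1 k y)
    (Eventually.of_forall hlim)
  simpa [hint] using this

/-- norm of the positive part -/
noncomputable def pp (g : C(K, ℝ)) : ℝ := ‖g ⊔ 0‖

theorem pp_nonneg (g : C(K, ℝ)) : 0 ≤ pp g := norm_nonneg _

theorem le_pp (g : C(K, ℝ)) (y : K) : g y ≤ pp g := by
  have := (g ⊔ 0).norm_coe_le_norm y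
  refine le_trans ?_ this
  rw [Real.norm_eq_abs]
  refine le_trans ?_ (le_abs_self _)
  simp

theorem pp_le (g : C(K, ℝ)) (r : ℝ) (hr : 0 ≤ r) (h : ∀ y, g y ≤ r) : pp g ≤ r := by
  refine (ContinuousMap.norm_le _ hr).2 fun y => ?_
  rw [Real.norm_eq_abs, abs_of_nonneg (by simp)]
  simp [h y, hr]

theorem pp_add (f g : C(K, ℝ)) : pp (f + g) ≤ pp f + pp g :=
  pp_le _ _ (add_nonneg (pp_nonneg _) (pp_nonneg _)) fun y => add_le_add (le_pp f y) (le_pp g y)

theorem pp_smul (c : ℝ) (hc : 0 < c) (g : C(K, ℝ)) : pp (c • g) = c * pp g := by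
  apply le_antisymm
  · exact pp_le _ _ (mul_nonneg hc.le (pp_nonneg _)) fun y =>
      mul_le_mul_of_nonneg_left (le_pp g y) hc.le
  · rw [← le_div_iff₀' hc]
    refine pp_le _ _ (div_nonneg (pp_nonneg _) hc.le) fun y => ?_
    rw [le_div_iff₀' hc]
    exact le_pp (c • g) y

/-- every bounded functional on `C(K)` is dominated by a positive one -/
theorem exists_dom (ρ : C(K, ℝ) →L[ℝ] ℝ) :
    ∃ m : C(K, ℝ) →ₗ[ℝ] ℝ, Pos m ∧ m 1 ≤ ‖ρ‖ ∧
      ∀ f g : C(K, ℝ), (∀ y, |f y| ≤ g y) → ρ f ≤ m g := by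
  let D : Submodule ℝ (C(K, ℝ) × C(K, ℝ)) :=
    { carrier := {p | p.2 = -p.1}
      add_mem' := fun {a b} ha hb => by
        simp only [Set.mem_ofPred_eq, Prod.snd_add, Prod.fst_add] at *
        rw [ha, hb]; abel
      zero_mem' := by simp
      smul_mem' := fun c a ha => by
        simp only [Set.mem_ofPred_eq, Prod.smul_snd, Prod.smul_fst] at *
        rw [ha, smul_neg] }
  let f0 : (C(K, ℝ) × C(K, ℝ)) →ₗ.[ℝ] ℝ :=
    ⟨D, (ρ : C(K, ℝ) →ₗ[ℝ] ℝ) ∘ₗ (LinearMap.fst ℝ _ _) ∘ₗ D.subtype⟩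
  obtain ⟨Λ, hΛ1, hΛ2⟩ := exists_extension_of_le_sublinear f0
    (fun p => ‖ρ‖ * max (pp p.1) (pp p.2))
    (fun c hc p => by
      simp only [Prod.smul_fst, Prod.smul_snd, pp_smul c hc]
      rw [← mul_max_of_nonneg _ _ hc.le]; ring)
    (fun p q => by
      rw [← mul_add]
      refine mul_le_mul_of_nonneg_left (max_le ?_ ?_) ρ.opNorm_nonneg
      · exact (pp_add _ _).trans (add_le_add (le_max_left _ _) (le_max_left _ _))
      · exact (pp_add _ _).trans (add_le_add (le_max_right _ _) (le_max_right _ _)))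
    (fun p => by
      have hp : p.1.2 = -p.1.1 := p.2
      change ρ p.1.1 ≤ _
      refine (le_abs_self _).trans ((ρ.le_opNorm _).trans
        (mul_le_mul_of_nonneg_left ?_ (norm_nonneg _)))
      refine (ContinuousMap.norm_le _ ((pp_nonneg _).trans (le_max_left _ _))).2 fun y => ?_
      rw [Real.norm_eq_abs, abs_le]
      constructor
      · have := (le_pp p.1.2 y).trans (le_max_right (pp p.1.1) _)
        rw [hp] at this ⊢
        simp only [ContinuousMap.neg_apply] at this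
        linarith
      · exact (le_pp p.1.1 y).trans (le_max_left _ _))
  have hpos : ∀ f g : C(K, ℝ), (∀ y, 0 ≤ f y) → (∀ y, 0 ≤ g y) → 0 ≤ Λ (f, g) := by
    intro f g hf hg
    have h1 := hΛ2 (-(f, g))
    rw [map_neg] at h1
    have h2 : max (pp (-(f, g)).1) (pp (-(f, g)).2) ≤ 0 :=
      max_le (pp_le _ _ le_rfl fun y => by simpa using hf y)
        (pp_le _ _ le_rfl fun y => by simpa using hg y)
    have h3 := mul_nonpos_of_nonneg_of_nonpos (norm_nonneg ρ) h2
    linarith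
  refine ⟨Λ ∘ₗ (LinearMap.prod LinearMap.id LinearMap.id), fun g hg => hpos g g hg hg, ?_, ?_⟩
  · refine (hΛ2 (1, 1)).trans ?_
    have : pp (1 : C(K, ℝ)) ≤ 1 := pp_le _ _ zero_le_one fun y => le_rfl
    simp only [max_self]
    exact mul_le_of_le_one_right ρ.opNorm_nonneg this
  · intro f g hfg
    have h1 : Λ (f, -f) = ρ f := hΛ1 ⟨(f, -f), rfl⟩
    have h2 := hpos (g - f) (g + f)
      (fun y => by have := (abs_le.1 (hfg y)).2; simp; linarith)
      (fun y => by have := (abs_le.1 (hfg y)).1; simp; linarith)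
    have h3 : ((g - f, g + f) : C(K, ℝ) × C(K, ℝ)) = (g, g) - (f, -f) := by simp
    rw [h3, map_sub, h1] at h2
    change ρ f ≤ Λ (g, g)
    linarith

theorem weakly_null [T2Space K] (ρ : C(K, ℝ) →L[ℝ] ℝ) (h : ℕ → C(K, ℝ))
    (h0 : ∀ k y, 0 ≤ h k y) (h1 : ∀ k y, h k y ≤ 1)
    (hlim : ∀ y, Tendsto (fun k => h k y) atTop (𝓝 0)) (δ : ℝ) (hδ : 0 < δ) :
    ∀ᶠ k in atTop, ρ (h k) < δ := by
  obtain ⟨m, hm, -, hdom⟩ := exists_dom ρ
  filter_upwards [(hm.tendsto_zero h h0 h1 hlim).eventually (gt_mem_nhds hδ)] with k hk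
  exact (hdom _ _ fun y => (abs_of_nonneg (h0 k y)).le).trans_lt hk

/-- passing from a pointwise null sequence to an almost disjoint one -/
theorem disjointify [T2Space K] (ρ : ℕ → C(K, ℝ) →L[ℝ] ℝ) (M : ℝ) (hM : ∀ k, ‖ρ k‖ ≤ M)
    (h : ℕ → C(K, ℝ)) (h0 : ∀ k y, 0 ≤ h k y) (h1 : ∀ k y, h k y ≤ 1)
    (hlim : ∀ y, Tendsto (fun k => h k y) atTop (𝓝 0)) (δ : ℝ) (hδ : 0 < δ)
    (hρ : ∀ k, δ ≤ ρ k (h k)) :
    ∃ (σ : ℕ → ℕ) (u : ℕ → C(K, ℝ)), StrictMono σ ∧ UE u (1 + δ / 2) ∧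
      ∀ n, δ / 2 ≤ ρ (σ n) (u n) := by
  have hd := fun k => exists_dom (ρ k)
  choose m hm hm1 hdom using hd
  let U := hyperfilter ℕ
  have hU : (U : Filter ℕ) ≤ atTop := Nat.hyperfilter_le_atTop
  have hbd : ∀ (g : C(K, ℝ)) k, |m k g| ≤ ‖g‖ * M := by
    intro g k
    have a1 : m k g ≤ m k (‖g‖ • 1) := (hm k).mono fun y => by
      simpa using (le_abs_self _).trans (g.norm_coe_le_norm y)
    have a2 : m k (-g) ≤ m k (‖g‖ • 1) := (hm k).mono fun y => by
      simpa using (neg_le_abs _).trans (g.norm_coe_le_norm y)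
    rw [map_smul, smul_eq_mul] at a1 a2
    rw [map_neg] at a2
    have a3 : ‖g‖ * m k 1 ≤ ‖g‖ * M :=
      mul_le_mul_of_nonneg_left ((hm1 k).trans (hM k)) (norm_nonneg _)
    rw [abs_le]; constructor <;> linarith
  have hex := fun g : C(K, ℝ) => exists_ulim U (fun k => m k g) _ (hbd g)
  choose L hL using hex
  let mm : C(K, ℝ) →ₗ[ℝ] ℝ :=
    { toFun := L
      map_add' := fun f g => tendsto_nhds_unique (hL (f + g))
        (by simpa using (hL f).add (hL g))
      map_smul' := fun c g => tendsto_nhds_unique (hL (c • g))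
        (by simpa using (hL g).const_mul c) }
  have hmm : Pos mm := fun g hg => ge_of_tendsto' (hL g) fun k => hm k g hg
  have hmm0 : Tendsto (fun a => L (h a)) atTop (𝓝 0) := hmm.tendsto_zero h h0 h1 hlim
  obtain ⟨σ, w, hσ, hw, hsum, -, hR⟩ := select U hU (fun w a => L (h a) < w * w)
    (fun w _ a b => m b (h a) < w * w)
    (fun w hw => (hmm0.eventually (gt_mem_nhds (mul_pos hw hw))).filter_mono hU)
    (fun w w' a _ _ hh => (hL (h a)).eventually (gt_mem_nhds hh)) (δ / 2) (by positivity)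
  let v : ℕ → C(K, ℝ) := fun n => ∑ i ∈ range n, (w i)⁻¹ • h (σ i)
  have hv : ∀ n y, v n y = ∑ i ∈ range n, (w i)⁻¹ * h (σ i) y := fun n y => by
    simp [v, ContinuousMap.sum_apply]
  have hv0 : ∀ n y, 0 ≤ v n y := fun n y => by
    rw [hv]
    exact Finset.sum_nonneg fun i _ => mul_nonneg (inv_pos.2 (hw i)).le (h0 _ _)
  let u : ℕ → C(K, ℝ) := fun n => (h (σ n) - v n) ⊔ 0
  have hu : ∀ n y, u n y = max (h (σ n) y - v n y) 0 := fun n y => rfl
  have hu0 : ∀ n y, 0 ≤ u n y := fun n y => le_max_right _ _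
  have huh : ∀ n y, u n y ≤ h (σ n) y := fun n y => by
    rw [hu]
    exact max_le (by linarith [hv0 n y]) (h0 _ _)
  have hsumu : ∀ y (s : Finset ℕ), ∑ n ∈ s, u n y ≤ 1 + ∑ n ∈ s, w n := by
    intro y s
    induction s using Finset.induction_on_max with
    | empty => simp
    | insert N s hN ih =>
      have hNs : N ∉ s := fun hh => lt_irrefl _ (hN N hh)
      rw [Finset.sum_insert hNs, Finset.sum_insert hNs]
      rcases (hu0 N y).eq_or_lt with hz | hz
      · rw [← hz]; linarith [hw N]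
      · have b1 : v N y < 1 := by
          rw [hu, lt_max_iff] at hz
          rcases hz with hz | hz
          · linarith [h1 (σ N) y]
          · exact absurd hz (lt_irrefl _)
        have b2 : ∀ n ∈ s, u n y ≤ w n := by
          intro n hn
          have b3 : (w n)⁻¹ * h (σ n) y ≤ v N y := by
            rw [hv]
            exact Finset.single_le_sum (f := fun i => (w i)⁻¹ * h (σ i) y)
              (fun i _ => mul_nonneg (inv_pos.2 (hw i)).le (h0 _ _))
              (Finset.mem_range.2 (hN n hn))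
          have b4 : (w n)⁻¹ * h (σ n) y ≤ 1 := by linarith
          rw [inv_mul_le_iff₀ (hw n), mul_one] at b4
          exact (huh n y).trans b4
        have b5 := Finset.sum_le_sum b2
        linarith [hw N, huh N y, h1 (σ N) y]
  refine ⟨σ, u, hσ, ?_, fun n => ?_⟩
  · intro s a r hr ha
    refine (ContinuousMap.norm_le _ (by positivity)).2 fun y => ?_
    rw [ContinuousMap.sum_apply, Real.norm_eq_abs]
    calc |∑ k ∈ s, (a k • u k) y| ≤ ∑ k ∈ s, |(a k • u k) y| := Finset.abs_sum_le_sum_abs _ _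
      _ ≤ ∑ k ∈ s, r * u k y := Finset.sum_le_sum fun k hk => by
          rw [ContinuousMap.smul_apply, smul_eq_mul, abs_mul, abs_of_nonneg (hu0 k y)]
          exact mul_le_mul_of_nonneg_right (ha k hk) (hu0 k y)
      _ = r * ∑ k ∈ s, u k y := by rw [Finset.mul_sum]
      _ ≤ r * (1 + δ / 2) :=
          mul_le_mul_of_nonneg_left ((hsumu y s).trans (by linarith [hsum s])) hr
      _ = (1 + δ / 2) * r := mul_comm _ _
  · have c1 : ρ (σ n) (h (σ n) - u n) ≤ m (σ n) (v n) := by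
      refine hdom _ _ _ fun y => ?_
      rw [ContinuousMap.sub_apply, abs_of_nonneg (by linarith [huh n y]), hu]
      have := le_max_left (h (σ n) y - v n y) 0
      linarith
    have c2 : m (σ n) (v n) ≤ ∑ i ∈ range n, w i := by
      simp only [v, map_sum, map_smul, smul_eq_mul]
      refine Finset.sum_le_sum fun i hi => ?_
      rw [inv_mul_le_iff₀ (hw i)]
      exact (hR i n (Finset.mem_range.1 hi)).le
    rw [map_sub] at c1
    linarith [hρ (σ n), hsum (range n)]

/-- if `c0` is not complemented in `C(K)`, weak-star convergent sequences of functionals are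
small on pointwise null sequences -/
theorem dpstar [T2Space K] (hK : ¬ Cpl C(K, ℝ)) (lam : ℕ → C(K, ℝ) →L[ℝ] ℝ)
    (l : C(K, ℝ) →L[ℝ] ℝ) (M : ℝ) (hM : ∀ k, ‖lam k‖ ≤ M)
    (hconv : ∀ g, Tendsto (fun k => lam k g) atTop (𝓝 (l g)))
    (h : ℕ → C(K, ℝ)) (h0 : ∀ k y, 0 ≤ h k y) (h1 : ∀ k y, h k y ≤ 1)
    (hlim : ∀ y, Tendsto (fun k => h k y) atTop (𝓝 0)) (δ : ℝ) (hδ : 0 < δ) :
    ∃ᶠ k in atTop, lam k (h k) < δ := by
  by_contra hcon
  rw [not_frequently] at hcon
  obtain ⟨N, hN⟩ := eventually_atTop.1 (hcon.and (weakly_null l h h0 h1 hlim (δ / 2) (by positivity)))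
  have hsh : Tendsto (fun k => k + N) atTop atTop := tendsto_add_atTop_nat N
  obtain ⟨σ, u, hσ, hu, hρ⟩ := disjointify (fun k => lam (k + N) - l) (M + ‖l‖)
    (fun k => (norm_sub_le (lam (k + N)) l).trans (by linarith [hM (k + N)])) (fun k => h (k + N))
    (fun k => h0 _) (fun k => h1 _) (fun y => (hlim y).comp hsh) (δ / 2) (by positivity)
    (fun k => by
      obtain ⟨a1, a2⟩ := hN (k + N) (Nat.le_add_left _ _)
      simp only [not_lt] at a1
      change δ / 2 ≤ lam (k + N) (h (k + N)) - l (h (k + N))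
      linarith)
  refine hK (hu.cpl (fun n => lam (σ n + N) - l) (M + ‖l‖)
    (fun k => (norm_sub_le (lam (σ k + N)) l).trans (by linarith [hM (σ k + N)])) (δ / 2 / 2) (by positivity)
    hρ fun g => ?_)
  have := (((hconv g).comp hsh).comp hσ.tendsto_atTop).sub_const (l g)
  rw [sub_self] at this
  exact this

end Pool.Agent.H516Z.CKX
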