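import Mathlib
import Pool.Agent.H516Z.CKDP

set_option autoImplicit false

open Filter Topology Finset

namespace Pool.Agent.H516Z.CKX

universe u

variable {K : Type} [TopologicalSpace K] [CompactSpace K] [T2Space K]
  {X : Type} [NormedAddCommGroup X] [NormedSpace ℝ X] [CompleteSpace X]

omit [T2Space K] [CompleteSpace X] in
theorem norm_smul_le' (g : C(K, ℝ)) (H : C(K, X)) : ‖g • H‖ ≤ ‖g‖ * ‖H‖ := by
  refine (ContinuousMap.norm_le _ (by positivity)).2 fun y => ?_
  rw [ContinuousMap.smul_apply', norm_smul]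
  exact mul_le_mul (g.norm_coe_le_norm y) (H.norm_coe_le_norm y) (norm_nonneg _) (norm_nonneg _)

/-- multiplication of a fixed vector valued function by scalar functions -/
noncomputable def mulH (H : C(K, X)) : C(K, ℝ) →L[ℝ] C(K, X) :=
  LinearMap.mkContinuous
    { toFun := fun g => g • H
      map_add' := fun f g => by ext y; simp [add_smul]
      map_smul' := fun c g => by ext y; simp [mul_smul] } ‖H‖
    fun g => (norm_smul_le' g H).trans (mul_comm _ _).le

omit [T2Space K] [CompleteSpace X] in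
theorem mulH_apply (H : C(K, X)) (g : C(K, ℝ)) : mulH H g = g • H := rfl

theorem step {L : Type u} [TopologicalSpace L] [CompactSpace L]
    (hK : ¬ Cpl C(K, ℝ)) (hX : ¬ Emb X)
    (J : C(L, ℝ) →L[ℝ] C(K, X)) (Q : C(K, X) →L[ℝ] C(L, ℝ)) (hQJ : ∀ f, Q (J f) = f)
    (T : ℝ) (hT : 0 < T) (hJT : ‖J‖ ≤ T)
    (α : L) (a : ℕ → L) (ha : Tendsto a atTop (𝓝 α)) (f : ℕ → C(L, ℝ)) (hf : UE f 1)
    (hf1 : ∀ k, f k (a k) = 1) (B : ℝ)
    (hB : ∀ k (H : C(K, X)), ‖H‖ ≤ 1 → Q H (a k) ≤ B) (H : C(K, X)) (hH : ‖H‖ ≤ 1) :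
    Q H α ≤ B - T⁻¹ := by
  have hQ0 : 0 ≤ ‖Q‖ := Q.opNorm_nonneg
  have hQle : ∀ (G : C(K, X)) (β : L), |Q G β| ≤ ‖Q‖ * ‖G‖ := fun G β =>
    ((Q G).norm_coe_le_norm β).trans (Q.le_opNorm G)
  let F : ℕ → C(K, X) := fun k => J (f k)
  have hFue : UE F (T * 1) := hf.map J T hJT
  have hFT : ∀ k, ‖F k‖ ≤ T := fun k => by
    simpa using hFue {k} (fun _ => 1) 1 zero_le_one (by simp)
  have hF0 : ∀ y, Tendsto (fun k => ‖F k y‖) atTop (𝓝 0) := fun y => by
    refine UE.tendsto_zero hX (x := fun k => F k y) (C := T * 1) ?_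
    intro s b r hr hb
    have h1 : ∑ k ∈ s, b k • F k y = (∑ k ∈ s, b k • F k) y := by
      simp [ContinuousMap.sum_apply]
    rw [h1]
    exact (ContinuousMap.norm_coe_le_norm _ y).trans (hFue s b r hr hb)
  have key : ∀ η : ℝ, 0 < η → Q H α ≤ B - T⁻¹ + η * (2 + T⁻¹ * ‖Q‖) := by
    intro η hη
    let h : ℕ → C(K, ℝ) := fun k => ⟨fun y => min 1 (‖F k y‖ / η), by fun_prop⟩
    have hh : ∀ k y, h k y = min 1 (‖F k y‖ / η) := fun k y => rfl
    have h0 : ∀ k y, 0 ≤ h k y := fun k y => le_min zero_le_one (by positivity)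
    have h1 : ∀ k y, h k y ≤ 1 := fun k y => min_le_left _ _
    have hlim : ∀ y, Tendsto (fun k => h k y) atTop (𝓝 0) := fun y => by
      have := (hF0 y).div_const η
      rw [zero_div] at this
      exact squeeze_zero (fun k => h0 k y) (fun k => min_le_right _ _) this
    let lam : L → C(K, ℝ) →L[ℝ] ℝ := fun β =>
      (ContinuousMap.evalCLM ℝ β).comp (Q.comp (mulH H))
    have hlam : ∀ β g, lam β g = Q (g • H) β := fun β g => rfl
    have hlamM : ∀ β, ‖lam β‖ ≤ ‖Q‖ := fun β => by
      refine ContinuousLinearMap.opNorm_le_bound _ hQ0 fun g => ?_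
      rw [hlam]
      refine (hQle _ _).trans (mul_le_mul_of_nonneg_left ?_ hQ0)
      exact (norm_smul_le' g H).trans (mul_le_of_le_one_right (norm_nonneg _) hH)
    have hfr := dpstar hK (fun k => lam (a k)) (lam α) ‖Q‖ (fun k => hlamM _)
      (fun g => ((Q (g • H)).continuous.tendsto α).comp ha) h h0 h1 hlim η hη
    have hev : ∀ᶠ k in atTop, Q H α - η < Q H (a k) :=
      (((Q H).continuous.tendsto α).comp ha).eventually (lt_mem_nhds (by linarith))
    obtain ⟨k, hk1, hk2⟩ := (hfr.and_eventually hev).exists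
    rw [hlam] at hk1
    have hG : ‖H - h k • H + T⁻¹ • (h k • F k)‖ ≤ 1 := by
      refine (ContinuousMap.norm_le _ zero_le_one).2 fun y => ?_
      have e1 : (H - h k • H + T⁻¹ • (h k • F k)) y =
          (1 - h k y) • H y + (h k y * T⁻¹) • F k y := by
        simp only [ContinuousMap.add_apply, ContinuousMap.sub_apply, ContinuousMap.smul_apply',
          ContinuousMap.smul_apply, sub_smul, one_smul, smul_smul, mul_comm]
      rw [e1]
      have e2 : ‖H y‖ ≤ 1 := (H.norm_coe_le_norm y).trans hH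
      have e3 : T⁻¹ * ‖F k y‖ ≤ 1 := by
        rw [inv_mul_le_iff₀ hT, mul_one]
        exact ((F k).norm_coe_le_norm y).trans (hFT k)
      have e4 := h0 k y
      have e5 := h1 k y
      calc ‖(1 - h k y) • H y + (h k y * T⁻¹) • F k y‖
          ≤ ‖(1 - h k y) • H y‖ + ‖(h k y * T⁻¹) • F k y‖ := norm_add_le _ _
        _ = (1 - h k y) * ‖H y‖ + h k y * (T⁻¹ * ‖F k y‖) := by
            rw [norm_smul, norm_smul, Real.norm_eq_abs, Real.norm_eq_abs,
              abs_of_nonneg (by linarith), abs_of_nonneg (by positivity), mul_assoc]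
        _ ≤ (1 - h k y) * 1 + h k y * 1 :=
            add_le_add (mul_le_mul_of_nonneg_left e2 (by linarith))
              (mul_le_mul_of_nonneg_left e3 e4)
        _ = 1 := by ring
    have hrest : ‖F k - h k • F k‖ ≤ η := by
      refine (ContinuousMap.norm_le _ hη.le).2 fun y => ?_
      have e1 : (F k - h k • F k) y = (1 - h k y) • F k y := by
        simp only [ContinuousMap.sub_apply, ContinuousMap.smul_apply', sub_smul, one_smul]
      rw [e1, norm_smul, Real.norm_eq_abs, abs_of_nonneg (by linarith [h1 k y])]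
      rcases le_total η ‖F k y‖ with e2 | e2
      · have : h k y = 1 := by
          rw [hh]; exact min_eq_left ((one_le_div hη).2 e2)
        rw [this]; simp [hη.le]
      · have e4 := h0 k y
        have e5 := norm_nonneg (F k y)
        nlinarith
    have c1 := hB k _ hG
    have c2 : Q (F k) (a k) = 1 := by rw [hQJ, hf1]
    have c3 : Q (F k - h k • F k) (a k) ≤ ‖Q‖ * η :=
      (le_abs_self _).trans ((hQle _ _).trans (mul_le_mul_of_nonneg_left hrest hQ0))
    simp only [map_add, map_sub, map_smul, ContinuousMap.add_apply, ContinuousMap.sub_apply,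
      ContinuousMap.smul_apply, smul_eq_mul] at c1 c3
    rw [c2] at c3
    have c4 : T⁻¹ * (1 - ‖Q‖ * η) ≤ T⁻¹ * Q (h k • F k) (a k) :=
      mul_le_mul_of_nonneg_left (by linarith) (by positivity)
    nlinarith
  refine le_of_forall_pos_le_add fun ε hε => ?_
  have hc : 0 < 2 + T⁻¹ * ‖Q‖ := by positivity
  have := key (ε / (2 + T⁻¹ * ‖Q‖)) (by positivity)
  rwa [div_mul_cancel₀ _ hc.ne'] at this

open Ordinal in
theorem isClopen_Ioc (a b : Ordinal.{0}) : IsClopen (Set.Ioc a b) := by
  constructor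
  · have : Set.Ioc a b = Set.Icc (Order.succ a) b := by
      ext x; simp
    rw [this]; exact isClosed_Icc
  · have : Set.Ioc a b = Set.Ioo a (Order.succ b) := by
      ext x; simp
    rw [this]; exact isOpen_Ioo

open Ordinal in
theorem main (hK : ¬ Cpl C(K, ℝ)) (hX : ¬ Emb X)
    (J : C(Set.Icc (0 : Ordinal.{0}) (ω ^ ω), ℝ) →L[ℝ] C(K, X))
    (Q : C(K, X) →L[ℝ] C(Set.Icc (0 : Ordinal.{0}) (ω ^ ω), ℝ)) (hQJ : ∀ f, Q (J f) = f) :
    False := by
  let T : ℝ := ‖J‖ + 1
  have hT : 0 < T := by have := J.opNorm_nonneg; positivity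
  have hJT : ‖J‖ ≤ T := by simp [T]
  have key : ∀ (n : ℕ) (β : Ordinal.{0}) (hβ : β + ω ^ (n : Ordinal) ≤ ω ^ ω) (H : C(K, X)),
      ‖H‖ ≤ 1 → Q H ⟨β + ω ^ (n : Ordinal), zero_le, hβ⟩ ≤ ‖Q‖ - n * T⁻¹ := by
    intro n
    induction n with
    | zero =>
      intro β hβ H hH
      have h1 := (le_abs_self _).trans (((Q H).norm_coe_le_norm ⟨_, zero_le, hβ⟩).trans
        ((Q.le_opNorm H).trans (mul_le_of_le_one_right Q.opNorm_nonneg hH)))
      simpa using h1
    | succ n ih =>
      intro β hβ H hH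
      set W : Ordinal.{0} := ω ^ (n : Ordinal) with hW
      have hWpos : 0 < W := opow_pos _ omega0_pos
      have hsucc : ω ^ ((n + 1 : ℕ) : Ordinal.{0}) = W * ω := by
        rw [Nat.cast_succ, opow_add_one]
      let c : ℕ → Ordinal.{0} := fun k => β + W * k
      have hc : ∀ k, c (k + 1) = c k + W := fun k => by
        simp only [c]; rw [Nat.cast_succ, mul_add_one, add_assoc]
      have hcm : StrictMono c := strictMono_nat_of_lt_succ fun k => by
        rw [hc]; exact lt_add_of_pos_right _ hWpos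
      have hcle : ∀ k, c k ≤ β + ω ^ ((n + 1 : ℕ) : Ordinal.{0}) := fun k => by
        rw [hsucc]
        exact add_le_add_right (mul_le_mul_right (natCast_lt_omega0 k).le W) β
      have hlub : IsLUB (Set.range fun k => c (k + 1)) (β + ω ^ ((n + 1 : ℕ) : Ordinal.{0})) := by
        constructor
        · rintro _ ⟨k, rfl⟩; exact hcle _
        · intro z hz
          by_contra hlt
          rw [not_le, hsucc,
            lt_add_iff_of_isSuccLimit (isSuccLimit_mul_right hWpos isSuccLimit_omega0)] at hlt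
          obtain ⟨d, hd, hzd⟩ := hlt
          obtain ⟨e, he, hde⟩ := (lt_mul_iff_of_isSuccLimit isSuccLimit_omega0).1 hd
          obtain ⟨k, rfl⟩ := lt_omega0.1 he
          have h1 : c (k + 1) ≤ z := hz ⟨k, rfl⟩
          have h2 : β + d ≤ c k := add_le_add_right hde.le β
          exact lt_irrefl _ ((hzd.trans_le h2).trans ((hcm (Nat.lt_succ_self k)).trans_le h1))
      let a : ℕ → Set.Icc (0 : Ordinal.{0}) (ω ^ ω) := fun k =>
        ⟨c (k + 1), zero_le, (hcle _).trans hβ⟩
      have ha : Tendsto a atTop (𝓝 ⟨β + ω ^ ((n + 1 : ℕ) : Ordinal.{0}), zero_le, hβ⟩) := by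
        rw [tendsto_subtype_rng]
        exact tendsto_atTop_isLUB (fun i j hij => hcm.monotone (Nat.succ_le_succ hij)) hlub
      let f : ℕ → C(Set.Icc (0 : Ordinal.{0}) (ω ^ ω), ℝ) := fun k =>
        ⟨fun x => (Set.Ioc (c k) (c (k + 1))).indicator (fun _ => (1 : ℝ)) x.1,
          ((isClopen_Ioc _ _).continuous_indicator continuous_const).comp continuous_subtype_val⟩
      have hfx : ∀ k x, f k x = (Set.Ioc (c k) (c (k + 1))).indicator (fun _ => (1 : ℝ)) x.1 :=
        fun k x => rfl
      have hf1 : ∀ k, f k (a k) = 1 := fun k => by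
        rw [hfx, Set.indicator_of_mem]
        exact ⟨hcm (Nat.lt_succ_self k), le_rfl⟩
      have hf : UE f 1 := by
        intro s b r hr hb
        rw [one_mul]
        refine (ContinuousMap.norm_le _ hr).2 fun x => ?_
        rw [ContinuousMap.sum_apply, Real.norm_eq_abs]
        by_cases hx : ∃ k ∈ s, x.1 ∈ Set.Ioc (c k) (c (k + 1))
        · obtain ⟨k, hk, hxk⟩ := hx
          rw [Finset.sum_eq_single_of_mem k hk]
          · rw [ContinuousMap.smul_apply, hfx, Set.indicator_of_mem hxk]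
            simpa using hb k hk
          · intro j _ hjk
            rw [ContinuousMap.smul_apply, hfx, Set.indicator_of_notMem, smul_zero]
            intro hxj
            rcases lt_or_gt_of_ne hjk with h | h
            · exact lt_irrefl _ ((hxk.1.trans_le hxj.2).trans_le (hcm.monotone h))
            · exact lt_irrefl _ ((hxj.1.trans_le hxk.2).trans_le (hcm.monotone h))
        · rw [Finset.sum_eq_zero]
          · simpa using hr
          · intro j hj
            rw [ContinuousMap.smul_apply, hfx, Set.indicator_of_notMem, smul_zero]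
            exact fun hxj => hx ⟨j, hj, hxj⟩
      have := step hK hX J Q hQJ T hT hJT _ a ha f hf hf1 (‖Q‖ - n * T⁻¹) (fun k G hG => by
        have h1 := ih (c k) (by rw [← hc]; exact (hcle _).trans hβ) G hG
        have h2 : a k = ⟨c k + W, zero_le, by rw [← hc]; exact (hcle _).trans hβ⟩ :=
          Subtype.ext (hc k)
        rw [h2]; exact h1) H hH
      refine this.trans (le_of_eq ?_)
      push_cast
      ring
  obtain ⟨n, hn⟩ := exists_nat_gt (‖Q‖ * T)
  have h1 := key n 0 (by
    rw [zero_add]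
    exact opow_le_opow_right omega0_pos (natCast_lt_omega0 n).le) 0 (by simp)
  simp only [map_zero, ContinuousMap.zero_apply, sub_nonneg] at h1
  rw [← div_eq_mul_inv, div_le_iff₀ hT] at h1
  linarith

end Pool.Agent.H516Z.CKX
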