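import Mathlib

set_option autoImplicit false

open Filter Topology Finset

namespace Pool.Agent.H516Z.DefPerf

/-- a natural-number valued function is constant or tends to infinity along an ultrafilter -/
theorem const_or_atTop {ι : Type} (U : Ultrafilter ι) (f : ι → ℕ) :
    (∃ c, ∀ᶠ n in (U : Filter ι), f n = c) ∨ Tendsto f U atTop := by
  by_cases h : Tendsto f U atTop
  · exact Or.inr h
  · left
    rw [tendsto_atTop] at h
    push Not at h
    obtain ⟨N, hN⟩ := h
    have h2 : ∀ᶠ n in (U : Filter ι), ∃ c ∈ Set.Iio N, f n = c :=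
      hN.mono fun n hn => ⟨f n, hn, rfl⟩
    rw [Ultrafilter.eventually_exists_mem_iff (Set.finite_Iio N)] at h2
    obtain ⟨c, _, hc⟩ := h2
    exact ⟨c, hc⟩

/-- the sum of divisors of a prime power -/
def s (p e : ℕ) : ℕ := ∑ j ∈ range (e + 1), p ^ j

/-- abundancy of a prime power -/
noncomputable def ab (p e : ℕ) : ℝ := (s p e : ℝ) / (p : ℝ) ^ e

theorem ab_eq (p e : ℕ) (hp : 3 ≤ p) :
    ab p e = ((p : ℝ) - ((p : ℝ) ^ e)⁻¹) / ((p : ℝ) - 1) := by
  have hp' : (3 : ℝ) ≤ p := by exact_mod_cast hp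
  have h1 : (p : ℝ) ≠ 1 := by linarith
  have h2 : (p : ℝ) - 1 ≠ 0 := by linarith
  have h3 : (p : ℝ) ^ e ≠ 0 := by positivity
  unfold ab s
  push_cast
  rw [geom_sum_eq h1]
  field_simp
  ring

theorem one_lt_ab (p e : ℕ) (hp : 3 ≤ p) (he : 1 ≤ e) : 1 < ab p e := by
  have hp' : (3 : ℝ) ≤ p := by exact_mod_cast hp
  rw [ab_eq p e hp, lt_div_iff₀ (by linarith)]
  have : ((p : ℝ) ^ e)⁻¹ < 1 := by
    apply inv_lt_one_of_one_lt₀
    exact one_lt_pow₀ (by linarith) (by omega)
  linarith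

theorem ab_le (p e : ℕ) (hp : 3 ≤ p) : ab p e ≤ 1 + ((p : ℝ) - 1)⁻¹ := by
  have hp' : (3 : ℝ) ≤ p := by exact_mod_cast hp
  have h2 : (0 : ℝ) < (p : ℝ) - 1 := by linarith
  rw [ab_eq p e hp, div_le_iff₀ h2, add_mul, inv_mul_cancel₀ h2.ne']
  have : 0 ≤ ((p : ℝ) ^ e)⁻¹ := by positivity
  linarith

theorem one_prime {ι : Type} (U : Ultrafilter ι) (p e : ι → ℕ)
    (hodd : ∀ n, Odd (p n)) (h3 : ∀ n, 3 ≤ p n) (he : ∀ n, 1 ≤ e n)
    (hs : ∀ n, Odd (s (p n) (e n))) :
    ∃ a b : ℕ, Odd a ∧ 0 < b ∧ Tendsto (fun n => ab (p n) (e n)) U (𝓝 ((a : ℝ) / b)) ∧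
      (Even b ∨ (∀ᶠ n in (U : Filter ι), (a : ℝ) / b < ab (p n) (e n)) ∨
        ((∃ c, ∀ᶠ n in (U : Filter ι), p n ^ e n = c) ∧
          ∀ᶠ n in (U : Filter ι), (a : ℝ) / b = ab (p n) (e n))) := by
  rcases const_or_atTop U p with ⟨q, hq⟩ | hp
  · obtain ⟨n0, hn0⟩ := hq.exists
    have hq3 : 3 ≤ q := hn0 ▸ h3 n0
    have hqo : Odd q := hn0 ▸ hodd n0
    rcases const_or_atTop U e with ⟨f, hf⟩ | hee
    · obtain ⟨n1, hn1, hn1'⟩ := (hq.and hf).exists
      have hev : ∀ᶠ n in (U : Filter ι), ((s q f : ℕ) : ℝ) / ((q ^ f : ℕ) : ℝ) = ab (p n) (e n) := by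
        filter_upwards [hq, hf] with n h1 h2
        rw [h1, h2]; unfold ab; push_cast; rfl
      refine ⟨s q f, q ^ f, ?_, by positivity, ?_, Or.inr (Or.inr ⟨⟨q ^ f, ?_⟩, hev⟩)⟩
      · have := hs n1
        rwa [hn1, hn1'] at this
      · exact tendsto_const_nhds.congr' hev
      · filter_upwards [hq, hf] with n h1 h2
        rw [h1, h2]
    · refine ⟨q, q - 1, hqo, by omega, ?_, Or.inl ?_⟩
      · have hq' : (3 : ℝ) ≤ q := by exact_mod_cast hq3
        have h1 : Tendsto (fun n => ((q : ℝ) ^ e n)⁻¹) U (𝓝 0) :=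
          tendsto_inv_atTop_zero.comp
            ((tendsto_pow_atTop_atTop_of_one_lt (by linarith)).comp hee)
        have h2 : Tendsto (fun n => ((q : ℝ) - ((q : ℝ) ^ e n)⁻¹) / ((q : ℝ) - 1)) U
            (𝓝 (((q : ℝ) - 0) / ((q : ℝ) - 1))) :=
          (tendsto_const_nhds.sub h1).div_const _
        have h4 : ((q - 1 : ℕ) : ℝ) = (q : ℝ) - 1 := by
          rw [Nat.cast_sub (by omega)]; simp
        rw [h4]
        rw [sub_zero] at h2
        refine h2.congr' ?_
        filter_upwards [hq] with n h1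
        rw [h1, ab_eq q _ hq3]
      · obtain ⟨t, ht⟩ := hqo
        exact ⟨t, by omega⟩
  · refine ⟨1, 1, odd_one, one_pos, ?_, Or.inr (Or.inl ?_)⟩
    · have h1 : Tendsto (fun n => 1 + ((p n : ℝ) - 1)⁻¹) U (𝓝 (1 + 0)) := by
        refine tendsto_const_nhds.add (tendsto_inv_atTop_zero.comp ?_)
        exact tendsto_atTop_add_const_right _ (-1) (tendsto_natCast_atTop_atTop.comp hp)
      simp only [Nat.cast_one, div_one]
      rw [add_zero] at h1
      exact tendsto_of_tendsto_of_tendsto_of_le_of_le tendsto_const_nhds h1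
        (fun n => (one_lt_ab _ _ (h3 n) (he n)).le) (fun n => ab_le _ _ (h3 n))
    · refine Eventually.of_forall fun n => ?_
      simpa using one_lt_ab _ _ (h3 n) (he n)

theorem main (k : ℕ) :
    Set.Finite {n : ℕ | Odd n ∧ n.primeFactors.card = k ∧
        ∃ d : ℕ, d ∣ n ∧ (∑ i ∈ n.divisors, i) + d = 2 * n} := by
  set S := {n : ℕ | Odd n ∧ n.primeFactors.card = k ∧
        ∃ d : ℕ, d ∣ n ∧ (∑ i ∈ n.divisors, i) + d = 2 * n} with hS
  by_contra hinf
  have hinf' : S.Infinite := hinf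
  have : Infinite S := hinf'.to_subtype
  let U : Ultrafilter S := hyperfilter S
  have hcard : ∀ n : S, n.1.primeFactors.card = k := fun n => n.2.2.1
  let p : Fin k → S → ℕ := fun i n => n.1.primeFactors.orderEmbOfFin (hcard n) i
  let e : Fin k → S → ℕ := fun i n => n.1.factorization (p i n)
  have hn0 : ∀ n : S, n.1 ≠ 0 := fun n h => by
    have := n.2.1; rw [h] at this; exact absurd this (by decide)
  have hpmem : ∀ i n, p i n ∈ n.1.primeFactors := fun i n => Finset.orderEmbOfFin_mem _ _ _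
  have hprod : ∀ (M : Type) [CommMonoid M] (n : S) (F : ℕ → M),
      ∏ q ∈ n.1.primeFactors, F q = ∏ i, F (p i n) := by
    intro M _ n F
    symm
    refine Finset.prod_bij (fun i _ => p i n) (fun i _ => hpmem i n) ?_ ?_ (fun _ _ => rfl)
    · intro i _ j _ hij
      exact (n.1.primeFactors.orderEmbOfFin (hcard n)).injective hij
    · intro q hq
      have : q ∈ Set.range (n.1.primeFactors.orderEmbOfFin (hcard n)) := by
        rw [Finset.range_orderEmbOfFin]; exact hq
      obtain ⟨i, hi⟩ := this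
      exact ⟨i, Finset.mem_univ _, hi⟩
  have hnprod : ∀ n : S, n.1 = ∏ i, p i n ^ e i n := by
    intro n
    rw [← hprod ℕ n (fun q => q ^ n.1.factorization q)]
    exact (Nat.prod_factorization_pow_eq_self (hn0 n)).symm
  have hsig : ∀ n : S, ∑ i ∈ n.1.divisors, i = ∏ i, s (p i n) (e i n) := by
    intro n
    rw [Nat.sum_divisors (hn0 n), hprod ℕ n]
    rfl
  have hpodd : ∀ i n, Odd (p i n) := fun i n =>
    Odd.of_dvd_nat n.2.1 (Nat.dvd_of_mem_primeFactors (hpmem i n))
  have hp3 : ∀ i n, 3 ≤ p i n := fun i n => by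
    have h1 := (Nat.prime_of_mem_primeFactors (hpmem i n)).two_le
    obtain ⟨t, ht⟩ := hpodd i n
    omega
  have he1 : ∀ i n, 1 ≤ e i n := fun i n => by
    have := hpmem i n
    rw [← Nat.support_factorization, Finsupp.mem_support_iff] at this
    exact Nat.one_le_iff_ne_zero.2 this
  have hm : ∀ n : S, ∃ m : ℕ, Odd m ∧ Odd (∑ i ∈ n.1.divisors, i) ∧
      ∏ i, ab (p i n) (e i n) = 2 - (m : ℝ)⁻¹ := by
    intro n
    obtain ⟨hodd, -, d, ⟨m, hm⟩, hsum⟩ := n.2
    have hdm : Odd d ∧ Odd m := by rw [hm] at hodd; exact Nat.odd_mul.1 hodd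
    refine ⟨m, hdm.2, ?_, ?_⟩
    · obtain ⟨t, ht⟩ := hdm.1
      rw [Nat.odd_iff]; omega
    · have h1 : ∏ i, ab (p i n) (e i n) = ((∑ i ∈ n.1.divisors, i : ℕ) : ℝ) / (n.1 : ℝ) := by
        rw [hsig n]
        conv_rhs => rw [hnprod n]
        unfold ab
        rw [Finset.prod_div_distrib]
        push_cast
        rfl
      have hd0 : (d : ℝ) ≠ 0 := by
        have := hdm.1.pos; positivity
      have hm0 : (m : ℝ) ≠ 0 := by
        have := hdm.2.pos; positivity
      have h2 : ((∑ i ∈ n.1.divisors, i : ℕ) : ℝ) = 2 * (n.1 : ℝ) - d := by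
        have : (((∑ i ∈ n.1.divisors, i) + d : ℕ) : ℝ) = ((2 * n.1 : ℕ) : ℝ) := by rw [hsum]
        rw [Nat.cast_add, Nat.cast_mul] at this
        push_cast at this ⊢
        linarith
      rw [h1, h2]
      have h3 : (n.1 : ℝ) = d * m := by rw [hm]; push_cast; rfl
      rw [h3]
      field_simp
  choose m hmodd hsodd hab using hm
  have hsi : ∀ i n, Odd (s (p i n) (e i n)) := fun i n => by
    have := hsodd n
    rw [hsig n] at this
    exact Odd.of_dvd_nat this (Finset.dvd_prod_of_mem _ (Finset.mem_univ i))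
  have key := fun i => one_prime U (p i) (e i) (hpodd i) (hp3 i) (he1 i) (hsi i)
  choose a b haodd hb hlim hcase using key
  have hlimprod : Tendsto (fun n => ∏ i, ab (p i n) (e i n)) U (𝓝 (∏ i, (a i : ℝ) / b i)) :=
    tendsto_finsetProd _ fun i _ => hlim i
  have hA : Odd (∏ i, a i) := Finset.prod_induction _ Odd (fun _ _ => Odd.mul) odd_one
    (fun i _ => haodd i)
  have hB : 0 < ∏ i, b i := Finset.prod_pos fun i _ => hb i
  have hAB : ∏ i, (a i : ℝ) / b i = ((∏ i, a i : ℕ) : ℝ) / ((∏ i, b i : ℕ) : ℝ) := by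
    rw [Finset.prod_div_distrib]; push_cast; rfl
  have hB' : (0 : ℝ) < ((∏ i, b i : ℕ) : ℝ) := by exact_mod_cast hB
  rcases const_or_atTop U m with ⟨c, hc⟩ | hminf
  · obtain ⟨n0, hn0c⟩ := hc.exists
    have hcodd : Odd c := hn0c ▸ hmodd n0
    have hc0 : (0 : ℝ) < c := by exact_mod_cast hcodd.pos
    have hev : ∀ᶠ n in (U : Filter S), (2 - (c : ℝ)⁻¹) = ∏ i, ab (p i n) (e i n) := by
      filter_upwards [hc] with n hn
      rw [hab n, hn]
    have hL : ∏ i, (a i : ℝ) / b i = 2 - (c : ℝ)⁻¹ :=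
      tendsto_nhds_unique hlimprod (tendsto_const_nhds.congr' hev)
    have hBodd : Odd (∏ i, b i) := by
      have h1 := hL
      rw [hAB, div_eq_iff hB'.ne'] at h1
      have h2 : (((∏ i, a i) * c + (∏ i, b i) : ℕ) : ℝ) = ((2 * (c * ∏ i, b i) : ℕ) : ℝ) := by
        rw [Nat.cast_add, Nat.cast_mul, h1, Nat.cast_mul, Nat.cast_mul]
        field_simp
        push_cast
        ring
      have h3 := Nat.cast_injective (R := ℝ) h2
      obtain ⟨t, ht⟩ := hA.mul hcodd
      rw [Nat.odd_iff]; omega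
    have hbodd : ∀ i, ¬ Even (b i) := fun i => Nat.not_even_iff_odd.2
      (Odd.of_dvd_nat hBodd (Finset.dvd_prod_of_mem _ (Finset.mem_univ i)))
    have hle : ∀ i, ∀ᶠ n in (U : Filter S), (a i : ℝ) / b i ≤ ab (p i n) (e i n) := by
      intro i
      rcases hcase i with h | h | h
      · exact absurd h (hbodd i)
      · exact h.mono fun n hn => hn.le
      · exact h.2.mono fun n hn => hn.le
    have hpos : ∀ i, (0 : ℝ) < (a i : ℝ) / b i := fun i => by
      have h1 := (haodd i).pos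
      have h2 := hb i
      positivity
    have hconst : ∀ i, ∃ c, ∀ᶠ n in (U : Filter S), p i n ^ e i n = c := by
      intro i
      rcases hcase i with h | h | h
      · exact absurd h (hbodd i)
      · exfalso
        obtain ⟨n, h1, h2, h3⟩ := (h.and (hev.and (eventually_all.2 hle))).exists
        have : ∏ j, (a j : ℝ) / b j < ∏ j, ab (p j n) (e j n) :=
          Finset.prod_lt_prod (fun j _ => hpos j) (fun j _ => h3 j) ⟨i, Finset.mem_univ _, h1⟩
        linarith
      · exact h.1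
    choose cc hcc using hconst
    have hfin : ∀ᶠ n in (U : Filter S), n.1 = ∏ i, cc i := by
      filter_upwards [eventually_all.2 hcc] with n hn
      rw [hnprod n]
      exact Finset.prod_congr rfl fun i _ => hn i
    have : ({n : S | n.1 = ∏ i, cc i} : Set S).Finite :=
      Set.Subsingleton.finite fun x hx y hy => Subtype.ext (hx.trans hy.symm)
    exact notMem_hyperfilter_of_finite this hfin
  · have h1 : Tendsto (fun n => 2 - (m n : ℝ)⁻¹) U (𝓝 (2 - 0)) :=
      tendsto_const_nhds.sub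
        (tendsto_inv_atTop_zero.comp (tendsto_natCast_atTop_atTop.comp hminf))
    have hL : ∏ i, (a i : ℝ) / b i = 2 - 0 :=
      tendsto_nhds_unique hlimprod (h1.congr fun n => (hab n).symm)
    rw [hAB, div_eq_iff hB'.ne', sub_zero] at hL
    have h2 : ((∏ i, a i : ℕ) : ℝ) = ((2 * ∏ i, b i : ℕ) : ℝ) := by rw [hL]; push_cast; ring
    have h3 := Nat.cast_injective (R := ℝ) h2
    obtain ⟨t, ht⟩ := hA
    omega

end Pool.Agent.H516Z.DefPerf
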